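import Pool.Agent.H84.LcpPf

namespace Pool.Agent.Results.MP_f2fc76_an.Yes

open Set Pool.Agent.H84.LcpDefs

theorem result {X : Type} [MetricSpace X] (F : ℝ → X → X)
    (hF : ContinuousOn (Function.uncurry F) (Ici 0 ×ˢ univ))
    (h0 : ∀ x, F 0 x = x) (ha : ∀ s t x, 0 ≤ s → 0 ≤ t → F (t + s) x = F t (F s x))
    (T : ℝ) (hT : 0 < T) (x y : X) : FlowLimit F x y ↔ MapLimit (F T) x y :=
  ⟨Pool.Agent.H84.LcpPf.fwd hF h0 ha hT, Pool.Agent.H84.LcpPf.bwd hF h0 ha hT⟩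

end Pool.Agent.Results.MP_f2fc76_an.Yes
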